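import Pool.Agent.H916K.Stick
import Pool.Agent.N198.NF.Def
import Pool.Agent.N214.HB.Ext

/-!
# Hodge type of Tate classes over number fields (project NF, leaf HT)

By helper426, adapted from `Pool.Agent.H916K.hodge_of_rational`.
-/

set_option autoImplicit false

namespace Pool.Agent.N426.NF

open NumberField Finset Pool.Agent.H916K Pool.Agent.H916R2 Pool.Agent.N198.NF
open Pool.Agent.N214.HB (chE chE_apply chE_pow orderOf_chE gauss_E)
open Pool.Agent.Y145.KS (psi psi_apply psi_ne_one)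

/-- the residue field of a prime above `ℓ` -/
theorem exists_resfield (k : Type) [Field k] [NumberField k] {ℓ : ℕ} (hℓ : ℓ.Prime) :
    ∃ (F : Type) (_ : Field F) (_ : Fintype F) (f : 𝓞 k →+* F), Function.Surjective f ∧
      CharP F ℓ := by
  have hmax : (Ideal.span {(ℓ : ℤ)}).IsMaximal :=
    PrincipalIdealRing.isMaximal_of_irreducible (p := (ℓ : ℤ))
      (Nat.prime_iff_prime_int.mp hℓ).irreducible
  obtain ⟨Q, hQ1, hQ2⟩ := Ideal.exists_maximal_ideal_liesOver_of_isIntegral (S := 𝓞 k)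
    (Ideal.span {(ℓ : ℤ)})
  have hmem : ((ℓ : ℕ) : 𝓞 k) ∈ Q := by
    have h1 : (ℓ : ℤ) ∈ Ideal.span {(ℓ : ℤ)} := Ideal.mem_span_singleton_self _
    rw [hQ2.over, Ideal.mem_comap] at h1
    simpa using h1
  have hQ0 : Q ≠ ⊥ := by
    rintro rfl
    rw [Ideal.mem_bot] at hmem
    exact hℓ.ne_zero (Nat.cast_eq_zero.1 hmem)
  have hfin : Finite (𝓞 k ⧸ Q) := Ideal.finiteQuotientOfFreeOfNeBot Q hQ0
  refine ⟨𝓞 k ⧸ Q, Ideal.Quotient.field Q, Fintype.ofFinite _, Ideal.Quotient.mk Q,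
    Ideal.Quotient.mk_surjective, ?_⟩
  have h1 : ((ℓ : ℕ) : 𝓞 k ⧸ Q) = 0 := by
    have h2 := Ideal.Quotient.eq_zero_iff_mem.2 hmem
    rwa [map_natCast] at h2
  have hnt : Nontrivial (𝓞 k ⧸ Q) := Ideal.Quotient.nontrivial_iff.2 hQ1.ne_top
  exact (CharP.charP_iff_prime_eq_zero hℓ).2 h1

/-- **Hodge type.** Tate classes over number fields are Hodge classes. -/
theorem hodge_of_tate {k : Type} [Field k] [NumberField k] {m : ℕ} (hm : 2 ≤ m)
    {s : Multiset (ZMod m × 𝓞 k)} (h0 : ∀ z ∈ s, z.1 ≠ 0) (heven : Even (Multiset.card s))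
    (hsum : (s.map Prod.fst).sum = 0) (hc : ∀ z ∈ s, z.2 ≠ 0) (hT : TateClass k m s) :
    IsHodge m (s.map Prod.fst) := by
  classical
  have hmz : NeZero m := ⟨by omega⟩
  refine ⟨?_, by rwa [Multiset.card_map], hsum, ?_⟩
  · intro h
    obtain ⟨z, hz, hz0⟩ := Multiset.mem_map.mp h
    exact h0 z hz hz0
  intro t
  obtain ⟨N, hN⟩ := hT
  obtain ⟨ℓ, hℓN, hℓ, hℓm⟩ := Nat.forall_exists_prime_gt_and_eq_mod
    (q := m) (a := 1) isUnit_one
    (N + 3 + (s.map fun z => Ideal.absNorm (Ideal.span {z.2})).sum)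
  have hF : Fact ℓ.Prime := ⟨hℓ⟩
  have hℓ3 : 3 ≤ ℓ := by omega
  obtain ⟨κ, _, _, φ, Γ, _, v, hv1, hv2, hv3⟩ := exists_val hℓ
  have hv : Above φ v := ⟨hv1, hv2, hv3⟩
  obtain ⟨χ1, hχ1, hχφ⟩ := exists_teich (ℓ := ℓ) φ
  obtain ⟨ζ, hζ⟩ : ∃ ζ : AI, IsPrimitiveRoot ζ ℓ := by
    have h1 := Complex.isPrimitiveRoot_exp ℓ hℓ.ne_zero
    have h2 : IsIntegral ℤ (Complex.exp (2 * Real.pi * Complex.I / ((ℓ : ℕ) : ℂ))) :=
      h1.isIntegral hℓ.pos
    exact ⟨⟨_, h2⟩, IsPrimitiveRoot.of_map_of_injective (f := algebraMap AI ℂ) h1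
      Subtype.val_injective⟩
  have hinj : Function.Injective (algebraMap AI ℂ) := Subtype.val_injective
  have hmdvd : m ∣ ℓ - 1 := by
    have h1 : ((ℓ - 1 : ℕ) : ZMod m) = 0 := by
      rw [Nat.cast_sub (by omega), hℓm]; simp
    exact (ZMod.natCast_eq_zero_iff _ _).mp h1
  obtain ⟨e, he⟩ := hmdvd
  have he0 : 0 < e := Nat.pos_of_ne_zero (by rintro rfl; rw [mul_zero] at he; omega)
  set τ : ℕ := (t : ZMod m).val with hτ
  have hτcop : τ.Coprime m := ZMod.val_coe_unit_coprime t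
  set χ : MulChar (ZMod ℓ) AI := (χ1 ^ e) ^ τ with hχ
  have hord1 : orderOf (χ1 ^ e) = m := by
    rw [orderOf_pow_of_dvd he0.ne' (by rw [hχ1, he]; exact dvd_mul_left e m), hχ1, he,
      Nat.mul_div_cancel _ he0]
  have hordχ : orderOf χ = m := by
    rw [hχ, Nat.Coprime.orderOf_pow (by rw [hord1]; exact hτcop.symm), hord1]
  set ψ := AddChar.zmodChar ℓ hζ.pow_eq_one with hψdef
  set χ' : MulChar (ZMod ℓ) ℂ := χ.ringHomComp (algebraMap AI ℂ) with hχ'
  set ψ' : AddChar (ZMod ℓ) ℂ := (algebraMap AI ℂ).toMonoidHom.compAddChar ψ with hψ'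
  have hordχ' : orderOf χ' = m := by
    rw [← hordχ]
    exact orderOf_injective (MulChar.ringHomCompHom (algebraMap AI ℂ))
      (MulChar.injective_ringHomComp hinj) χ
  have hψ1 : ψ' ≠ 1 := by
    intro h
    have h1 : ψ' 1 = 1 := by rw [h]; rfl
    have h2 : algebraMap AI ℂ (ψ 1) = 1 := h1
    rw [hψdef, AddChar.zmodChar_apply] at h2
    have : Fact (1 < ℓ) := ⟨hℓ.one_lt⟩
    rw [ZMod.val_one, pow_one] at h2
    exact hζ.ne_one hℓ.one_lt (hinj (by rw [h2, map_one]))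
  -- the residue field
  obtain ⟨F, iF, iFt, f, hf, hchar⟩ := exists_resfield k hℓ
  let _ : Algebra (ZMod ℓ) F := ZMod.algebra F ℓ
  have hfinm : Module.Finite (ZMod ℓ) F := Module.Finite.of_finite
  obtain ⟨E, hE⟩ : ∃ E, E = Module.finrank (ZMod ℓ) F := ⟨_, rfl⟩
  have hE0 : 0 < E := by rw [hE]; exact Module.finrank_pos
  have hcardF : Fintype.card F = ℓ ^ E := by
    have h := Module.card_eq_pow_finrank (K := ZMod ℓ) (V := F)
    rw [ZMod.card] at h
    rw [hE]
    exact h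
  have hrange : Nat.card f.range = Fintype.card F := by
    rw [RingHom.range_eq_top.2 hf, Nat.card_congr Subring.topEquiv.toEquiv,
      Nat.card_eq_fintype_card]
  have hordℓ : orderOf ((Nat.card f.range : ℕ) : ZMod m) = 1 := by
    rw [hrange, hcardF, Nat.cast_pow, hℓm, one_pow, orderOf_one]
  have hrc : ringChar F = ℓ := ringChar.eq F ℓ
  have h1 := hN F f (by rw [hrc]; omega) (by rw [hordℓ, pow_one, hrange]) (chE χ' F) (psi ψ' F)
    (by rw [orderOf_chE, hordχ']) (psi_ne_one hψ1 F)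
  have h2 := congrArg v h1
  rw [map_mul, map_pow, map_multiset_prod, map_multiset_prod, Multiset.map_map,
    Multiset.map_map] at h2
  set π := v (((ζ - 1 : AI)) : ℂ) with hπ
  have hg : ∀ z ∈ s, v (gaussSum ((chE χ' F) ^ z.1.val) (psi ψ' F)) =
      π ^ (E * (e * ((t : ZMod m) * z.1).val)) := by
    intro z hz
    have e1 : gaussSum (χ' ^ z.1.val) ψ' = ((gaussSum (χ ^ z.1.val) ψ : AI) : ℂ) := by
      have : gaussSum (χ' ^ z.1.val) ψ' = algebraMap AI ℂ (gaussSum (χ ^ z.1.val) ψ) := by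
        unfold gaussSum
        rw [map_sum]
        refine sum_congr rfl fun x _ => ?_
        rw [map_mul, hχ', MulChar.ringHomComp_pow, MulChar.ringHomComp_apply]
        rfl
      rw [this]; rfl
    have e2 : χ ^ z.1.val = χ1 ^ (e * ((t : ZMod m) * z.1).val) := by
      rw [hχ, ← pow_mul, ← pow_mul, pow_eq_pow_iff_modEq, hχ1, he, ZMod.val_mul, mul_comm m e]
      exact (Nat.ModEq.mul_left' e (Nat.mod_modEq _ _)).symm
    have e3 : (t : ZMod m) * z.1 ≠ 0 := by
      intro h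
      exact h0 z hz ((t.isUnit.mul_right_eq_zero).mp h)
    have e4 : 0 < ((t : ZMod m) * z.1).val := Nat.pos_of_ne_zero
      (fun h => e3 ((ZMod.val_eq_zero _).mp h))
    have e5 := ZMod.val_lt ((t : ZMod m) * z.1)
    have e6 : e * ((t : ZMod m) * z.1).val ≤ e * (m - 1) := Nat.mul_le_mul_left e (by omega)
    have e7 : e * (m - 1) = ℓ - 1 - e := by
      rw [he, Nat.mul_sub, mul_one, mul_comm]
    have e8 : v (gaussSum (χ' ^ z.1.val) ψ') = π ^ (e * ((t : ZMod m) * z.1).val) := by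
      rw [e1, e2]
      exact v_gauss hv hζ hχ1 hχφ hℓ3 _ (Nat.mul_pos he0 e4) (by omega)
    rw [chE_pow, gauss_E _ hψ1, map_mul, map_pow, Valuation.map_neg, map_one, one_pow, one_mul,
      map_pow, e8, ← pow_mul, ← hE, mul_comm _ E]
  have hcf : ∀ z ∈ s, v (((chE χ' F) ^ z.1.val) (f z.2)) = 1 := by
    intro z hz
    have hfz : f z.2 ≠ 0 := by
      intro hfz
      have h3 := Ideal.absNorm_mem (Ideal.span {z.2})
      obtain ⟨w, hw⟩ := Ideal.mem_span_singleton.1 h3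
      have h4 : ((Ideal.absNorm (Ideal.span {z.2}) : ℕ) : F) = 0 := by
        rw [← map_natCast f, hw, map_mul, hfz, zero_mul]
      rw [CharP.cast_eq_zero_iff F ℓ] at h4
      have h5 : Ideal.absNorm (Ideal.span {z.2}) ≠ 0 := by
        rw [Ne, Ideal.absNorm_eq_zero_iff, Ideal.span_singleton_eq_bot]
        exact hc z hz
      have h6 := Nat.le_of_dvd (Nat.pos_of_ne_zero h5) h4
      have h7 : Ideal.absNorm (Ideal.span {z.2}) ≤
          (s.map fun z => Ideal.absNorm (Ideal.span {z.2})).sum :=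
        Multiset.single_le_sum (fun _ _ => Nat.zero_le _) _ (Multiset.mem_map_of_mem _ hz)
      omega
    obtain ⟨w, hw⟩ : ∃ w, w = ((chE χ' F) ^ z.1.val) (f z.2) := ⟨_, rfl⟩
    have hwp : w ^ m = 1 := by
      rw [hw, ← MulChar.pow_apply' _ (by omega), ← pow_mul, mul_comm, pow_mul]
      have h3 : (chE χ' F) ^ m = 1 := by
        rw [← hordχ', ← orderOf_chE (E := F) χ', pow_orderOf_eq_one]
      rw [h3, one_pow, MulChar.one_apply (isUnit_iff_ne_zero.2 hfz)]
    have hwi : IsIntegral ℤ w := IsIntegral.of_pow (n := m) (by omega) (by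
      rw [hwp]; exact isIntegral_one)
    rw [← hw]
    exact hv.root (x := ⟨w, hwi⟩) (n := m) (by omega) (Subtype.ext hwp)
  have e1 : (s.map (v ∘ fun z => gaussSum ((chE χ' F) ^ z.1.val) (psi ψ' F))) =
      s.map fun z => π ^ (E * (e * ((t : ZMod m) * z.1).val)) := Multiset.map_congr rfl hg
  have e2 : (s.map (v ∘ fun z => ((chE χ' F) ^ z.1.val) (f z.2))) = s.map fun _ => (1 : Γ) :=
    Multiset.map_congr rfl hcf
  rw [e1, e2, Multiset.map_const', Multiset.prod_replicate, one_pow, mul_one, hcardF,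
    Nat.cast_pow, map_pow] at h2
  have hprodpow : ∀ s : Multiset (ZMod m × 𝓞 k),
      (s.map fun z => π ^ (E * (e * ((t : ZMod m) * z.1).val))).prod =
        π ^ (E * (e * (s.map fun z => ((t : ZMod m) * z.1).val).sum)) := by
    intro s
    induction s using Multiset.induction_on with
    | empty => simp
    | cons a s ih =>
      rw [Multiset.map_cons, Multiset.prod_cons, ih, Multiset.map_cons, Multiset.sum_cons,
        ← pow_add, mul_add, mul_add]
  rw [hprodpow] at h2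
  -- the valuation of `ℓ`
  have hπ0 : π ≠ 0 := by
    rw [hπ, Valuation.ne_zero_iff]
    intro h0
    have h7 : (ζ : ℂ) = 1 := by
      have : ((ζ - 1 : AI) : ℂ) = (ζ : ℂ) - 1 := by push_cast; ring
      rw [this] at h0
      exact sub_eq_zero.mp h0
    exact hζ.ne_one hℓ.one_lt (Subtype.ext h7)
  have hπ1 : π < 1 := v_pi hv hζ
  have hvℓ : v ((ℓ : ℂ)) = π ^ (ℓ - 1) := by
    refine le_antisymm (v_ell hv hζ) ?_
    have hprim : (AddChar.zmodChar ℓ hζ.pow_eq_one).IsPrimitive :=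
      AddChar.zmodChar_primitive_of_primitive_root ℓ hζ
    have hne : χ1 ≠ 1 := by
      intro h; rw [h, orderOf_one] at hχ1; omega
    have h3 := gaussSum_mul_gaussSum_pow_orderOf_sub_one hne hprim
    rw [hχ1] at h3
    have h4 := congrArg (fun z : AI => v (z : ℂ)) h3
    push_cast at h4
    rw [map_mul, map_mul] at h4
    have hneg : v ((χ1 (-1) : AI) : ℂ) = 1 := by
      apply hv.root (n := 2) (by norm_num)
      rw [← map_pow]
      have : ((-1 : ZMod ℓ)) ^ 2 = 1 := by ring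
      rw [this, MulChar.map_one]
    rw [hneg, one_mul, ZMod.card, v_gauss_one hv hζ hχ1 hχφ hℓ3, show ℓ - 1 - 1 = ℓ - 2 by omega,
      v_gauss hv hζ hχ1 hχφ hℓ3 (ℓ - 2) (by omega) le_rfl, ← pow_succ',
      show ℓ - 2 + 1 = ℓ - 1 by omega] at h4
    exact h4.le
  rw [hvℓ, ← pow_mul, ← pow_mul] at h2
  have h3 := pow_right_injective₀ (zero_lt_iff.mpr hπ0) hπ1.ne h2
  obtain ⟨c, hcard⟩ := heven
  rw [hcard, show (c + c) / 2 = c by omega, he] at h3
  have h4 : (s.map fun z => ((t : ZMod m) * z.1).val).sum = m * c := by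
    have : (E * e) * (s.map fun z => ((t : ZMod m) * z.1).val).sum = (E * e) * (m * c) := by
      rw [mul_assoc, h3]; ring
    exact Nat.eq_of_mul_eq_mul_left (Nat.mul_pos hE0 he0) this
  rw [Multiset.map_map, Multiset.card_map]
  have h5 : (s.map ((fun a => ((t : ZMod m) * a).val) ∘ Prod.fst)).sum = m * c := h4
  rw [h5, hcard]; ring

end Pool.Agent.N426.NF
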